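import Pool.Agent.FU3.Stmts

/-!
Squad FU3, rows CLN and CVT (helper94).
-/

set_option autoImplicit false

open Finset

namespace Pool.Agent.FU3.H94

open Pool.Agent.FUR Pool.Agent.FU2

theorem wn_nonneg {N : ℕ} (t : ℝ) (g : RF N) : 0 ≤ wn t g := by
  unfold wn
  refine Finset.sum_nonneg fun S _ => mul_nonneg ?_ (sq_nonneg _)
  rw [pow_mul]
  exact pow_nonneg (sq_nonneg t) _

theorem cln (hO : OBLStmt) : CLNStmt := by
  intro N D t C ht hC hD s f hf
  induction hf with
  | cst b =>
    intro g
    cases b with
    | true =>
      simp only [ind, pow_zero, one_mul, if_true]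
      exact le_refl _
    | false =>
      have h0 : (fun x : Fin N → Bool => ind (fun _ => false) x * g x) = fun _ => 0 := by
        funext x
        simp [ind]
      rw [h0]
      have h1 : wn t (fun _ : Fin N → Bool => (0 : ℝ)) = 0 := by
        simp [wn, fc]
      rw [h1, pow_zero, one_mul]
      exact wn_nonneg t g
  | leaf f h =>
    intro g
    rw [pow_one]
    exact hD f h g
  | @not s f h ih =>
    intro g
    have h1 : (fun x : Fin N → Bool => ind (fun x => !(f x)) x * g x) =
        fun x => (1 - ind f x) * g x := by
      funext x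
      by_cases hx : f x = true
      · simp [ind, hx]
      · simp [ind, hx]
    rw [h1]
    exact hO N f t (C ^ s) ht (one_le_pow₀ hC) ih g
  | @and s u f g' h h' ih ih' =>
    intro g
    have h1 : (fun x : Fin N → Bool => ind (fun x => f x && g' x) x * g x) =
        fun x => ind f x * (fun y => ind g' y * g y) x := by
      funext x
      by_cases hx : f x = true
      · by_cases hy : g' x = true
        · simp [ind, hx, hy]
        · simp [ind, hx, hy]
      · simp [ind, hx]
    rw [h1]
    refine (ih _).trans ?_
    rw [pow_add, mul_assoc]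
    exact mul_le_mul_of_nonneg_left (ih' g) (pow_nonneg (by linarith) _)

theorem cvt : CVTStmt := by
  intro N r K I ρ x f hK hI
  unfold dv
  refine Finset.sum_congr rfl fun J hJ => ?_
  have hJI := Finset.mem_powerset.mp hJ
  have key : apl r (fS (ov K ρ x) J) = fS (ov K (apl r ρ) x) J := by
    funext v
    by_cases hv : v ∈ K
    · have h1 : r v = none := (Finset.mem_filter.mp (hK hv)).2
      by_cases hj : v ∈ J
      · simp [apl, fS, ov, hv, hj, h1]
      · simp [apl, fS, ov, hv, hj, h1]
    · have hj : v ∉ J := fun h => hv (hI (hJI h))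
      simp [apl, fS, ov, hv, hj]
  have h2 : ind (res r f) (fS (ov K ρ x) J) = ind f (fS (ov K (apl r ρ) x) J) := by
    unfold ind res
    rw [key]
  rw [h2]

end Pool.Agent.FU3.H94
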